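import Pool.Agent.Q222.Pol.Defs
import Pool.Agent.Results.MP_993768_co.NoUniversalRooted

set_option autoImplicit false

/-!
# An equivelar self-dual polyhedron without polarity

The starting file `MP_993768_co/NoUniversalRooted` contains the definition of an abstract polytope
and a construction of abstract polytopes from lists of (shifted) ranks and bit masks. Here it is
used for an equivelar polyhedron of type `{6, 6}` with 8 vertices, 24 edges and 8 two-faces (a map
on the closed orientable surface of genus 5). Its group of automorphisms and dualities is cyclic of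
order four and is generated by a duality.
-/

namespace Pool.Agent.Results.MP_1940b6_co.NoPolarity

open Pool.Agent.Q222.Pol
open Pool.Agent.Results.MP_993768_co.NoUniversalRooted hiding FlagAdj

/-! ### Words in the flag operators -/

/-- an element of the list different from `a` -/
def other (l : List El) (a : El) : El :=
  match l.find? (fun z => !(eqB z a)) with
  | some z => z
  | none => (0, 0)

/-- the flag operators on triples of faces -/
def opF (L : List El) (b t : El) (k : ℕ) (s : El × El × El) : El × El × El :=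
  match k with
  | 0 => (other (mid L b s.2.1) s.1, s.2.1, s.2.2)
  | 1 => (s.1, other (mid L s.1 s.2.2) s.2.1, s.2.2)
  | _ => (s.1, s.2.1, other (mid L s.2.1 t) s.2.2)

/-- move a flag by a word and a second flag by the dual word -/
def runF (L : List El) (b t : El) : List ℕ → (El × El × El) × (El × El × El) →
    (El × El × El) × (El × El × El)
  | [], s => s
  | k :: w, s => runF L b t w (opF L b t k s.1, opF L b t (2 - k) s.2)

def eqF (s t : El × El × El) : Bool := eqB s.1 t.1 && eqB s.2.1 t.2.1 && eqB s.2.2 t.2.2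

/-- the word shows that no polarity maps the flag `s` to the flag `u` -/
def badW (L : List El) (b t : El) (s u : El × El × El) (w : List ℕ) : Bool :=
  let r := runF L b t w (s, u)
  (eqF r.1 s && !(eqF r.2 u)) || (eqF r.1 u && !(eqF r.2 s))

def wordsChk (L : List El) (b t : El) (s : El × El × El)
    (W : List ((El × El × El) × List ℕ)) : Bool :=
  (W.all fun p => p.2.all (fun k => Nat.ble k 2) && badW L b t s p.1 p.2) &&
  (L.all fun v => !(Nat.beq v.1 1) || L.all fun e => !(Nat.beq e.1 2 && ltB v e) ||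
    L.all fun f => !(Nat.beq f.1 3 && ltB e f) || W.any fun p => eqF p.1 (v, e, f))

lemma eqF_iff {s t : El × El × El} : eqF s t = true ↔ s = t := by
  obtain ⟨s1, s2, s3⟩ := s
  obtain ⟨t1, t2, t3⟩ := t
  show (eqB s1 t1 && eqB s2 t2 && eqB s3 t3) = true ↔ _
  simp only [Bool.and_eq_true, eqB_iff, Prod.mk.injEq]
  exact and_assoc

lemma other_mem {l : List El} {a : El} (hl : l.length = 2) (hn : l.Nodup) (ha : a ∈ l) :
    other l a ∈ l ∧ other l a ≠ a := by
  have hex : ∃ z ∈ l, (!(eqB z a)) = true := by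
    match l, hl with
    | [x, y], _ =>
      rw [List.nodup_cons] at hn
      rcases List.mem_cons.mp ha with h | h
      · refine ⟨y, by simp, ?_⟩
        rw [Bool.not_eq_true', ← Bool.not_eq_true, eqB_iff]
        rintro rfl
        exact hn.1 (by simp [h])
      · refine ⟨x, by simp, ?_⟩
        rw [Bool.not_eq_true', ← Bool.not_eq_true, eqB_iff]
        rintro rfl
        exact hn.1 h
  unfold other
  cases h : l.find? (fun z => !(eqB z a)) with
  | none =>
    rw [List.find?_eq_none] at h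
    obtain ⟨z, hz, hz'⟩ := hex
    exact absurd hz' (h z hz)
  | some z =>
    have h1 := List.mem_of_find?_eq_some h
    have h2 := List.find?_some h
    rw [Bool.not_eq_true', ← Bool.not_eq_true, eqB_iff] at h2
    exact ⟨h1, h2⟩

lemma other_eq {l : List El} {a c : El} (hl : l.length = 2) (hn : l.Nodup) (ha : a ∈ l)
    (hc : c ∈ l) (hca : c ≠ a) : other l a = c := by
  obtain ⟨h1, h2⟩ := other_mem hl hn ha
  match l, hl with
  | [x, y], _ =>
    simp only [List.mem_cons, List.not_mem_nil, or_false] at h1 ha hc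
    rcases ha with rfl | rfl
    · rcases hc with rfl | rfl
      · exact absurd rfl hca
      · rcases h1 with h1 | h1
        · exact absurd h1 h2
        · exact h1
    · rcases hc with rfl | rfl
      · rcases h1 with h1 | h1
        · exact h1
        · exact absurd h1 h2
      · exact absurd rfl hca

section raw

variable {L : List El} {b t : El}

/-- raw properties of an incidence reversing map -/
structure RawDual (L : List El) (D : El → El) : Prop where
  mem : ∀ x ∈ L, D x ∈ L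
  lt : ∀ x ∈ L, ∀ y ∈ L, ltB x y = true → ltB (D y) (D x) = true
  inj : ∀ x ∈ L, ∀ y ∈ L, D x = D y → x = y

/-- a chain of faces of ranks one, two, three -/
structure VF (L : List El) (b t : El) (s : El × El × El) : Prop where
  m1 : s.1 ∈ L
  m2 : s.2.1 ∈ L
  m3 : s.2.2 ∈ L
  r1 : s.1.1 = 1
  r2 : s.2.1.1 = 2
  r3 : s.2.2.1 = 3
  l0 : ltB b s.1 = true
  l1 : ltB s.1 s.2.1 = true
  l2 : ltB s.2.1 s.2.2 = true
  l3 : ltB s.2.2 t = true

def RelF (D : El → El) (s u : El × El × El) : Prop :=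
  D s.1 = u.2.2 ∧ D s.2.1 = u.2.1 ∧ D s.2.2 = u.1

lemma mem_mid {x y z : El} : z ∈ mid L x y ↔ z ∈ L ∧ ltB x z = true ∧ ltB z y = true := by
  unfold mid
  rw [List.mem_filter, Bool.and_eq_true]

lemma ltB_trans' (h : Good 3 L b t) {x y z : El} (hx : x ∈ L) (hz : z ∈ L)
    (hy : y ∈ L) (h1 : ltB x y = true) (h2 : ltB y z = true) : ltB x z = true := by
  have a1 := (ordPF_lt h ⟨x, hx⟩ ⟨y, hy⟩).mpr h1
  have a2 := (ordPF_lt h ⟨y, hy⟩ ⟨z, hz⟩).mpr h2
  exact (ordPF_lt h ⟨x, hx⟩ ⟨z, hz⟩).mp (@lt_trans (PF L) (ordPF h).toPreorder _ _ _ a1 a2)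

/-- the key step: in sections of rank one the second face is mapped to the second face -/
lemma other_map (h : Good 3 L b t) {D : El → El} (hD : RawDual L D) {x y z x' y' : El}
    (hx : x ∈ L) (hy : y ∈ L) (hz : z ∈ L) (hx' : x' ∈ L) (hy' : y' ∈ L)
    (hxy : ltB x y = true) (hyz : ltB y z = true) (hr : z.1 = x.1 + 2) (hr' : x'.1 = y'.1 + 2)
    (e1 : ∀ w ∈ L, ltB x w = true → ltB (D w) x' = true)
    (e2 : ∀ w ∈ L, ltB w z = true → ltB y' (D w) = true) :
    other (mid L x z) y ∈ L ∧ ltB x (other (mid L x z) y) = true ∧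
      ltB (other (mid L x z) y) z = true ∧
      D (other (mid L x z) y) = other (mid L y' x') (D y) := by
  have hxz : ltB x z = true := ltB_trans' h hx hz hy hxy hyz
  have n1 : (mid L x z).length = 2 := h.diam x hx z hz hxz hr
  have n2 : (mid L x z).Nodup := h.nodup.filter _
  have hym : y ∈ mid L x z := mem_mid.mpr ⟨hy, hxy, hyz⟩
  obtain ⟨o1, o2⟩ := other_mem n1 n2 hym
  obtain ⟨p1, p2, p3⟩ := mem_mid.mp o1
  have q1 := e1 y hy hxy
  have q2 := e2 y hy hyz
  have hy'x' : ltB y' x' = true := ltB_trans' h hy' hx' (hD.mem y hy) q2 q1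
  have n3 : (mid L y' x').length = 2 := h.diam y' hy' x' hx' hy'x' hr'
  have n4 : (mid L y' x').Nodup := h.nodup.filter _
  refine ⟨p1, p2, p3, ?_⟩
  symm
  apply other_eq n3 n4
  · exact mem_mid.mpr ⟨hD.mem y hy, q2, q1⟩
  · exact mem_mid.mpr ⟨hD.mem _ p1, e2 _ p1 p3, e1 _ p1 p2⟩
  · intro he
    exact o2 (hD.inj _ p1 _ hy he)

/-- a chain in a good list of rank three -/
lemma VF.mk' (h : Good 3 L b t) {s : El × El × El} (m1 : s.1 ∈ L) (m2 : s.2.1 ∈ L)
    (m3 : s.2.2 ∈ L) (l0 : ltB b s.1 = true) (l1 : ltB s.1 s.2.1 = true)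
    (l2 : ltB s.2.1 s.2.2 = true) (l3 : ltB s.2.2 t = true) : VF L b t s := by
  have a0 := h.rk _ h.memb _ m1 l0
  have a1 := h.rk _ m1 _ m2 l1
  have a2 := h.rk _ m2 _ m3 l2
  have a3 := h.rk _ m3 _ h.memt l3
  have b0 := h.rkb
  have b1 := h.rkt
  exact ⟨m1, m2, m3, by omega, by omega, by omega, l0, l1, l2, l3⟩

lemma step_rel (h : Good 3 L b t) {D : El → El} (hD : RawDual L D)
    (hb : D b = t) (ht : D t = b) {s u : El × El × El} (hs : VF L b t s) (hu : VF L b t u)
    (hR : RelF D s u) {k : ℕ} (hk : k ≤ 2) :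
    VF L b t (opF L b t k s) ∧ VF L b t (opF L b t (2 - k) u) ∧
      RelF D (opF L b t k s) (opF L b t (2 - k) u) := by
  obtain ⟨R1, R2, R3⟩ := hR
  have hbt := h.rkb
  have htt := h.rkt
  have gen : ∀ (x y z x' y' : El), x ∈ L → y ∈ L → z ∈ L → x' ∈ L → y' ∈ L →
      ltB x y = true → ltB y z = true → z.1 = x.1 + 2 → x'.1 = y'.1 + 2 → D x = x' → D z = y' →
      other (mid L x z) y ∈ L ∧ ltB x (other (mid L x z) y) = true ∧
      ltB (other (mid L x z) y) z = true ∧
      D (other (mid L x z) y) = other (mid L y' x') (D y) ∧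
      other (mid L y' x') (D y) ∈ L ∧ ltB y' (other (mid L y' x') (D y)) = true ∧
      ltB (other (mid L y' x') (D y)) x' = true := by
    intro x y z x' y' hx hy hz hx' hy' hxy hyz hr hr' hDx hDz
    obtain ⟨c1, c2, c3, c4⟩ := other_map h hD hx hy hz hx' hy' hxy hyz hr hr'
      (fun w hw hxw => by rw [← hDx]; exact hD.lt x hx w hw hxw)
      (fun w hw hwz => by rw [← hDz]; exact hD.lt w hw z hz hwz)
    refine ⟨c1, c2, c3, c4, ?_, ?_, ?_⟩
    · rw [← c4]; exact hD.mem _ c1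
    · rw [← c4, ← hDz]; exact hD.lt _ c1 z hz c3
    · rw [← c4, ← hDx]; exact hD.lt x hx _ c1 c2
  interval_cases k
  · obtain ⟨c1, c2, c3, c4, c5, c6, c7⟩ := gen b s.1 s.2.1 t u.2.1 h.memb hs.m1 hs.m2 h.memt hu.m2
      hs.l0 hs.l1 (by rw [hs.r2, hbt]) (by rw [hu.r2, htt]) hb R2
    rw [R1] at c4 c5 c6 c7
    refine ⟨VF.mk' h c1 hs.m2 hs.m3 c2 c3 hs.l2 hs.l3, VF.mk' h hu.m1 hu.m2 c5 hu.l0 hu.l1 c6 c7,
      c4, R2, R3⟩
  · obtain ⟨c1, c2, c3, c4, c5, c6, c7⟩ := gen s.1 s.2.1 s.2.2 u.2.2 u.1 hs.m1 hs.m2 hs.m3 hu.m3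
      hu.m1 hs.l1 hs.l2 (by rw [hs.r1, hs.r3]) (by rw [hu.r1, hu.r3]) R1 R3
    rw [R2] at c4 c5 c6 c7
    refine ⟨VF.mk' h hs.m1 c1 hs.m3 hs.l0 c2 c3 hs.l3, VF.mk' h hu.m1 c5 hu.m3 hu.l0 c6 c7 hu.l3,
      R1, c4, R3⟩
  · obtain ⟨c1, c2, c3, c4, c5, c6, c7⟩ := gen s.2.1 s.2.2 t u.2.1 b hs.m2 hs.m3 h.memt hu.m2
      h.memb hs.l2 hs.l3 (by rw [hs.r2, htt]) (by rw [hu.r2, hbt]) R2 ht
    rw [R3] at c4 c5 c6 c7
    refine ⟨VF.mk' h hs.m1 hs.m2 c1 hs.l0 hs.l1 c2 c3, VF.mk' h c5 hu.m2 hu.m3 c6 c7 hu.l2 hu.l3,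
      R1, R2, c4⟩

lemma run_rel (h : Good 3 L b t) {D : El → El} (hD : RawDual L D)
    (hb : D b = t) (ht : D t = b) : ∀ (w : List ℕ), (∀ k ∈ w, k ≤ 2) →
    ∀ p : (El × El × El) × (El × El × El), VF L b t p.1 → VF L b t p.2 → RelF D p.1 p.2 →
      RelF D (runF L b t w p).1 (runF L b t w p).2 := by
  intro w
  induction w with
  | nil => intro _ p _ _ hR; exact hR
  | cons k w ih =>
    intro hw p h1 h2 hR
    obtain ⟨c1, c2, c3⟩ := step_rel h hD hb ht h1 h2 hR (hw k List.mem_cons_self)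
    exact ih (fun j hj => hw j (List.mem_cons_of_mem _ hj)) _ c1 c2 c3

theorem no_polarity_raw (h : Good 3 L b t) {s : El × El × El} (hs : VF L b t s)
    {W : List ((El × El × El) × List ℕ)} (hW : wordsChk L b t s W = true)
    {D : El → El} (hD : RawDual L D) (hb : D b = t) (ht : D t = b)
    (hinv : ∀ x ∈ L, D (D x) = x) : False := by
  have hu : VF L b t (D s.2.2, D s.2.1, D s.1) := by
    apply VF.mk' h (hD.mem _ hs.m3) (hD.mem _ hs.m2) (hD.mem _ hs.m1)
    · have := hD.lt _ hs.m3 _ h.memt hs.l3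
      rw [ht] at this
      exact this
    · exact hD.lt _ hs.m2 _ hs.m3 hs.l2
    · exact hD.lt _ hs.m1 _ hs.m2 hs.l1
    · have := hD.lt _ h.memb _ hs.m1 hs.l0
      rw [hb] at this
      exact this
  have hR : RelF D s (D s.2.2, D s.2.1, D s.1) := ⟨rfl, rfl, rfl⟩
  unfold wordsChk at hW
  simp only [Bool.and_eq_true, List.all_eq_true] at hW
  obtain ⟨w1, w2⟩ := hW
  have g1 := imp_of_or (w2 _ hu.m1) (by rw [Nat.beq_eq]; exact hu.r1)
  rw [List.all_eq_true] at g1
  have g2 := imp_of_or (g1 _ hu.m2) (by rw [Bool.and_eq_true, Nat.beq_eq]; exact ⟨hu.r2, hu.l1⟩)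
  rw [List.all_eq_true] at g2
  have g3 := imp_of_or (g2 _ hu.m3) (by rw [Bool.and_eq_true, Nat.beq_eq]; exact ⟨hu.r3, hu.l2⟩)
  rw [List.any_eq_true] at g3
  obtain ⟨p, hp, hpe⟩ := g3
  rw [eqF_iff] at hpe
  obtain ⟨k1, k2⟩ := w1 p hp
  have hk : ∀ k ∈ p.2, k ≤ 2 := fun k hk => by
    have := k1 k hk
    rwa [Nat.ble_eq] at this
  have hrun := run_rel h hD hb ht p.2 hk (s, (D s.2.2, D s.2.1, D s.1)) hs hu hR
  unfold badW at k2
  rw [hpe] at k2
  simp only [Bool.or_eq_true, Bool.and_eq_true, Bool.not_eq_true', ← Bool.not_eq_true,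
    eqF_iff] at k2
  obtain ⟨q1, q2, q3⟩ := hrun
  rcases k2 with ⟨z1, z2⟩ | ⟨z1, z2⟩
  · apply z2
    rw [z1] at q1 q2 q3
    exact Prod.ext q3.symm (Prod.ext q2.symm q1.symm)
  · apply z2
    rw [z1] at q1 q2 q3
    simp only at q1 q2 q3
    rw [hinv _ hs.m3] at q1
    rw [hinv _ hs.m2] at q2
    rw [hinv _ hs.m1] at q3
    exact Prod.ext q3.symm (Prod.ext q2.symm q1.symm)

end raw

/-! ### Transfer to the polytope -/

section transfer

variable {L : List El} {b t : El}

lemma no_polarity (h : Good 3 L b t) {s : El × El × El} (hs : VF L b t s)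
    {W : List ((El × El × El) × List ℕ)} (hW : wordsChk L b t s W = true)
    (δ : (mkPoly h).Face ≃o (mkPoly h).Faceᵒᵈ)
    (hpol : ∀ x, OrderDual.ofDual (δ (OrderDual.ofDual (δ x))) = x) : False := by
  classical
  let _ := ordPF h
  let E : PF L → PF L := fun x => OrderDual.ofDual (δ x)
  have hlt : ∀ x y : PF L, x < y → E y < E x := fun x y hxy => by
    have := δ.lt_iff_lt.mpr hxy
    exact this
  have hinj : ∀ x y : PF L, E x = E y → x = y := fun x y hxy => δ.injective hxy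
  have hinv : ∀ x : PF L, E (E x) = x := fun x => hpol x
  let D : El → El := fun x => if hx : x ∈ L then (E ⟨x, hx⟩).1 else x
  have hDx : ∀ (x : El) (hx : x ∈ L), D x = (E ⟨x, hx⟩).1 := fun x hx => dif_pos hx
  have hD : RawDual L D := by
    refine ⟨?_, ?_, ?_⟩
    · intro x hx
      rw [hDx x hx]
      exact (E ⟨x, hx⟩).2
    · intro x hx y hy hxy
      rw [hDx x hx, hDx y hy]
      exact (ordPF_lt h _ _).mp (hlt _ _ ((ordPF_lt h ⟨x, hx⟩ ⟨y, hy⟩).mpr hxy))
    · intro x hx y hy hxy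
      rw [hDx x hx, hDx y hy] at hxy
      exact congrArg Subtype.val (hinj _ _ (Subtype.ext hxy))
  have hinv' : ∀ x ∈ L, D (D x) = x := by
    intro x hx
    rw [hDx x hx, hDx _ (E ⟨x, hx⟩).2]
    exact congrArg Subtype.val (hinv ⟨x, hx⟩)
  have hb : D b = t := by
    by_contra hne
    have h1 : ltB (D b) t = true := by
      unfold ltB
      rw [Bool.and_eq_true, Bool.not_eq_true', ← Bool.not_eq_true, Nat.beq_eq]
      exact ⟨h.top _ (hD.mem _ h.memb), fun he => hne (h.inj _ (hD.mem _ h.memb) _ h.memt he)⟩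
    have h2 := hD.lt _ (hD.mem _ h.memb) _ h.memt h1
    rw [hinv' b h.memb] at h2
    have h3 := h.rk _ (hD.mem _ h.memt) _ h.memb h2
    rw [h.rkb] at h3
    omega
  have ht : D t = b := by rw [← hb, hinv' b h.memb]
  exact no_polarity_raw h hs hW hD hb ht hinv'

/-- the table gives an incidence reversing bijection -/
def dualChk (L : List El) (T : List (ℕ × El)) : Bool :=
  (L.all fun x => L.any fun y => eqB (look T x) y) &&
  (L.all fun x => L.all fun y => (leB x y) == (leB (look T y) (look T x))) &&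
  (L.all fun y => L.any fun x => eqB (look T x) y)

lemma exists_duality (h : Good 3 L b t) {T : List (ℕ × El)} (hT : dualChk L T = true) :
    Nonempty ((mkPoly h).Face ≃o (mkPoly h).Faceᵒᵈ) := by
  let _ := ordPF h
  unfold dualChk at hT
  simp only [Bool.and_eq_true, List.all_eq_true, List.any_eq_true, beq_iff_eq] at hT
  obtain ⟨⟨h1, h2⟩, h3⟩ := hT
  have hm : ∀ x : PF L, look T x.1 ∈ L := by
    intro x
    obtain ⟨y, hy, hxy⟩ := h1 x.1 x.2
    rw [eqB_iff] at hxy
    rw [hxy]; exact hy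
  let f : PF L → (PF L)ᵒᵈ := fun x => OrderDual.toDual ⟨look T x.1, hm x⟩
  have hf : ∀ x y : PF L, f x ≤ f y ↔ x ≤ y := by
    intro x y
    show leB (look T y.1) (look T x.1) = true ↔ leB x.1 y.1 = true
    rw [h2 _ x.2 _ y.2]
  have hsurj : Function.Surjective (OrderEmbedding.ofMapLEIff f hf) := by
    intro y
    obtain ⟨x, hx, hxy⟩ := h3 (OrderDual.ofDual y).1 (OrderDual.ofDual y).2
    rw [eqB_iff] at hxy
    exact ⟨⟨x, hx⟩, congrArg OrderDual.toDual (Subtype.ext hxy)⟩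
  exact ⟨RelIso.ofSurjective (OrderEmbedding.ofMapLEIff f hf) hsurj⟩

def eqvChk (L : List El) (p q : ℕ) : Bool :=
  (L.all fun F => !(Nat.beq F.1 3) ||
    Nat.beq (L.filter fun v => Nat.beq v.1 1 && leB v F).length p) &&
  (L.all fun v => !(Nat.beq v.1 1) ||
    Nat.beq (L.filter fun e => Nat.beq e.1 2 && leB v e).length q)

lemma ncard_filter (h : Good 3 L b t) (r : El → Bool) :
    {x : PF L | r x.1 = true}.ncard = (L.filter r).length := by
  classical
  have h1 : (L.filter r).Nodup := h.nodup.filter _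
  rw [← List.toFinset_card_of_nodup h1, ← Set.ncard_coe_finset]
  apply Set.ncard_congr (fun z _ => z.1)
  · intro z hz
    simp only [List.coe_toFinset]
    show z.1 ∈ L.filter r
    rw [List.mem_filter]
    exact ⟨z.2, hz⟩
  · intro z w _ _ he
    exact Subtype.ext he
  · intro z hz
    simp only [List.coe_toFinset] at hz
    have hz' : z ∈ L.filter r := hz
    rw [List.mem_filter] at hz'
    exact ⟨⟨z, hz'.1⟩, hz'.2, rfl⟩

lemma equivelar_of_chk (h : Good 3 L b t) {p q : ℕ} (hc : eqvChk L p q = true) :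
    (∀ F : (mkPoly h).Face, (mkPoly h).rk F = 3 →
      {v : (mkPoly h).Face | (mkPoly h).rk v = 1 ∧ v ≤ F}.ncard = p) ∧
    (∀ v : (mkPoly h).Face, (mkPoly h).rk v = 1 →
      {e : (mkPoly h).Face | (mkPoly h).rk e = 2 ∧ v ≤ e}.ncard = q) := by
  let _ := ordPF h
  unfold eqvChk at hc
  simp only [Bool.and_eq_true, List.all_eq_true] at hc
  obtain ⟨h1, h2⟩ := hc
  constructor
  · intro F hF
    have h3 := imp_of_or (h1 F.1 F.2) (by rw [Nat.beq_eq]; exact hF)
    rw [Nat.beq_eq] at h3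
    rw [← h3, ← ncard_filter h]
    congr 1
    ext v
    show (v.1.1 = 1 ∧ leB v.1 F.1 = true) ↔ (Nat.beq v.1.1 1 && leB v.1 F.1) = true
    rw [Bool.and_eq_true, Nat.beq_eq]
  · intro v hv
    have h3 := imp_of_or (h2 v.1 v.2) (by rw [Nat.beq_eq]; exact hv)
    rw [Nat.beq_eq] at h3
    rw [← h3, ← ncard_filter h]
    congr 1
    ext e
    show (e.1.1 = 2 ∧ leB v.1 e.1 = true) ↔ (Nat.beq e.1.1 2 && leB v.1 e.1) = true
    rw [Bool.and_eq_true, Nat.beq_eq]

end transfer

/-- change of the indexing of ranks -/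
def conv {n : ℕ} (P : Polytope n) : AbstractPolytope n where
  Face := P.Face
  rk F := (P.rk F : ℤ) - 1
  rk_strictMono := by
    intro F G h
    have := P.rk_strictMono h
    show (P.rk F : ℤ) - 1 < (P.rk G : ℤ) - 1
    omega
  least := ⟨⊥, by rw [rk_bot]; norm_num, fun G => bot_le⟩
  greatest := ⟨⊤, by rw [rk_top]; push_cast; ring, fun G => le_top⟩
  flag_rank := by
    intro A i h1 h2
    obtain ⟨F, hF, hr⟩ := flag_exists P.flag_ranks A (i := (i + 1).toNat) (by omega)
    refine ⟨F, ⟨hF, by omega⟩, ?_⟩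
    rintro G ⟨hG, hr'⟩
    exact flag_unique P.rk_strictMono A hG hF (by omega)
  diamond := by
    intro F G hFG hr
    exact P.diamond F G hFG (by omega)
  connected := by
    intro A B
    refine Relation.ReflTransGen.mono ?_ A B (P.connected A B)
    rintro C D ⟨h1, h2⟩
    exact ⟨h1, fun F hA hB => h2 ⟨hA, hB⟩⟩

/-! ### The example -/

def LL : List (ℕ × ℕ) := [
  (0, 0), (1, 1), (1, 2), (1, 4), (1, 8), (1, 16), (1, 32), (1, 64), (1, 128), (2, 273),
  (2, 546), (2, 1030), (2, 2057), (2, 4101), (2, 8202), (2, 16449), (2, 32898), (2, 65548),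
  (2, 131084), (2, 262288), (2, 524384), (2, 1048648), (2, 2097284), (2, 4194370),
  (2, 8388737), (2, 16777234), (2, 33554465), (2, 67108884), (2, 134217768), (2, 268435552),
  (2, 536871056), (2, 1073741904), (2, 2147483808), (3, 4333535731), (3, 8615903987),
  (3, 17248052575), (3, 34496092847), (3, 70212781182), (3, 140224039101), (3, 276498092253),
  (3, 552178098414), (4, 1099511627775)]

def DT : List (ℕ × (ℕ × ℕ)) := [
  (0, (4, 1099511627775)), (1, (3, 17248052575)), (2, (3, 34496092847)), (4, (3, 8615903987)),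
  (8, (3, 4333535731)), (16, (3, 70212781182)), (32, (3, 140224039101)),
  (64, (3, 552178098414)), (128, (3, 276498092253)), (273, (2, 1030)), (546, (2, 2057)),
  (1030, (2, 546)), (2057, (2, 273)), (4101, (2, 16449)), (8202, (2, 32898)),
  (16449, (2, 8202)), (32898, (2, 4101)), (65548, (2, 262288)), (131084, (2, 524384)),
  (262288, (2, 131084)), (524384, (2, 65548)), (1048648, (2, 4194370)),
  (2097284, (2, 8388737)), (4194370, (2, 2097284)), (8388737, (2, 1048648)),
  (16777234, (2, 134217768)), (33554465, (2, 67108884)), (67108884, (2, 16777234)),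
  (134217768, (2, 33554465)), (268435552, (2, 2147483808)), (536871056, (2, 1073741904)),
  (1073741904, (2, 268435552)), (2147483808, (2, 536871056)), (4333535731, (1, 4)),
  (8615903987, (1, 8)), (17248052575, (1, 2)), (34496092847, (1, 1)), (70212781182, (1, 32)),
  (140224039101, (1, 16)), (276498092253, (1, 64)), (552178098414, (1, 128)),
  (1099511627775, (0, 0))]

def FW : List (((ℕ × ℕ) × (ℕ × ℕ) × (ℕ × ℕ)) × List ℕ) := [
  (((1, 1), (2, 273), (3, 4333535731)), [0, 1, 0, 2, 1, 0, 1, 2, 1, 2]),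
  (((1, 2), (2, 546), (3, 8615903987)), [0, 1, 2, 1, 0, 1]),
  (((1, 4), (2, 1030), (3, 17248052575)), [0, 2, 1, 0, 1]),
  (((1, 8), (2, 2057), (3, 34496092847)), [1, 2, 1, 0, 2]),
  (((1, 4), (2, 1030), (3, 70212781182)), [0, 2, 1, 0, 1, 2]),
  (((1, 8), (2, 2057), (3, 140224039101)), [1, 2, 1, 0]),
  (((1, 16), (2, 273), (3, 4333535731)), [0]),
  (((1, 32), (2, 546), (3, 8615903987)), [0, 1, 2, 1, 0, 1, 0]),
  (((1, 16), (2, 273), (3, 17248052575)), [0, 1, 0, 2, 1, 0, 1, 2, 1, 0]),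
  (((1, 32), (2, 546), (3, 34496092847)), [1, 0, 1, 2, 1, 2]),
  (((1, 1), (2, 2057), (3, 140224039101)), [1, 2, 1]),
  (((1, 2), (2, 1030), (3, 70212781182)), [0, 1, 2, 1, 0, 2, 1]),
  (((1, 1), (2, 2057), (3, 34496092847)), [1, 2, 1, 2]),
  (((1, 2), (2, 1030), (3, 17248052575)), [0, 2, 1, 0, 1, 0]),
  (((1, 1), (2, 273), (3, 17248052575)), [2]),
  (((1, 2), (2, 546), (3, 34496092847)), [0, 1, 0, 1, 0, 2, 1]),
  (((1, 1), (2, 4101), (3, 276498092253)), [1, 2, 1, 2, 1, 2]),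
  (((1, 2), (2, 8202), (3, 552178098414)), [0, 1, 0, 1, 0, 1, 2, 1]),
  (((1, 64), (2, 16449), (3, 17248052575)), [1, 0, 1, 0, 2, 1, 2]),
  (((1, 128), (2, 32898), (3, 34496092847)), [0, 1, 0, 1, 2]),
  (((1, 64), (2, 16449), (3, 8615903987)), [2, 1, 0, 2]),
  (((1, 128), (2, 32898), (3, 4333535731)), [0, 1, 0, 1]),
  (((1, 4), (2, 4101), (3, 276498092253)), [1, 2, 1, 2, 1, 0, 2]),
  (((1, 8), (2, 8202), (3, 552178098414)), [1, 2, 1, 0, 1, 2, 1]),
  (((1, 4), (2, 4101), (3, 34496092847)), [1, 2, 1, 2, 1, 0]),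
  (((1, 8), (2, 8202), (3, 17248052575)), [2, 1, 0, 1, 0, 1]),
  (((1, 1), (2, 16449), (3, 8615903987)), [2, 1, 2]),
  (((1, 2), (2, 32898), (3, 4333535731)), [0, 1, 0, 1, 0]),
  (((1, 1), (2, 16449), (3, 17248052575)), [2, 1]),
  (((1, 2), (2, 32898), (3, 34496092847)), [0, 1, 0, 1, 0, 2]),
  (((1, 1), (2, 4101), (3, 34496092847)), [1, 2, 1, 2, 1]),
  (((1, 2), (2, 8202), (3, 17248052575)), [0, 2, 1, 0, 1, 0, 1]),
  (((1, 4), (2, 65548), (3, 140224039101)), [0, 2, 1, 0, 2, 1]),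
  (((1, 8), (2, 131084), (3, 70212781182)), [0, 2, 1, 0, 1, 2, 1, 0]),
  (((1, 16), (2, 262288), (3, 8615903987)), [1, 0, 1, 2, 1, 0, 1, 0, 1]),
  (((1, 32), (2, 524384), (3, 4333535731)), [1, 0, 1]),
  (((1, 16), (2, 262288), (3, 4333535731)), [0, 1]),
  (((1, 32), (2, 524384), (3, 8615903987)), [1, 0, 1, 2]),
  (((1, 4), (2, 131084), (3, 70212781182)), [0, 2, 1, 0, 1, 2, 1]),
  (((1, 8), (2, 65548), (3, 140224039101)), [0, 2, 1, 0, 2, 1, 0]),
  (((1, 4), (2, 131084), (3, 276498092253)), [0, 2, 1, 0, 1, 2, 1, 2]),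
  (((1, 8), (2, 65548), (3, 552178098414)), [1, 2, 1, 0, 1, 2]),
  (((1, 64), (2, 524384), (3, 8615903987)), [1, 0, 1, 0, 2]),
  (((1, 128), (2, 262288), (3, 4333535731)), [0, 1, 0]),
  (((1, 64), (2, 524384), (3, 4333535731)), [1, 0, 1, 0]),
  (((1, 128), (2, 262288), (3, 8615903987)), [0, 1, 0, 2]),
  (((1, 4), (2, 65548), (3, 552178098414)), [0, 2, 1, 0, 2, 1, 2]),
  (((1, 8), (2, 131084), (3, 276498092253)), [2, 1, 0, 1, 0, 2, 1]),
  (((1, 64), (2, 1048648), (3, 276498092253)), [2, 1, 0, 1, 2]),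
  (((1, 128), (2, 2097284), (3, 552178098414)), [0, 2, 1, 0, 2, 1, 2, 1, 0]),
  (((1, 64), (2, 4194370), (3, 552178098414)), [1, 0, 1, 0, 1, 2]),
  (((1, 128), (2, 8388737), (3, 276498092253)), [2, 1, 2, 1, 0, 2]),
  (((1, 64), (2, 4194370), (3, 4333535731)), [1, 0, 1, 0, 1]),
  (((1, 128), (2, 8388737), (3, 8615903987)), [0, 1, 0, 2, 1]),
  (((1, 4), (2, 2097284), (3, 552178098414)), [0, 1, 0, 1, 2, 1, 0, 2]),
  (((1, 8), (2, 1048648), (3, 276498092253)), [2, 1, 0, 1, 0, 2]),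
  (((1, 4), (2, 2097284), (3, 34496092847)), [0, 1, 0, 1, 2, 1, 0]),
  (((1, 8), (2, 1048648), (3, 17248052575)), [2, 1, 0, 1, 0]),
  (((1, 1), (2, 8388737), (3, 8615903987)), [2, 1, 2, 1]),
  (((1, 2), (2, 4194370), (3, 4333535731)), [0, 1, 0, 1, 0, 1]),
  (((1, 1), (2, 8388737), (3, 276498092253)), [2, 1, 2, 1, 2]),
  (((1, 2), (2, 4194370), (3, 552178098414)), [0, 1, 0, 1, 0, 1, 2]),
  (((1, 64), (2, 1048648), (3, 17248052575)), [2, 1, 0, 1]),
  (((1, 128), (2, 2097284), (3, 34496092847)), [0, 1, 0, 1, 2, 1]),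
  (((1, 16), (2, 16777234), (3, 70212781182)), [0, 1, 2, 1, 2]),
  (((1, 32), (2, 33554465), (3, 140224039101)), [1, 0, 2]),
  (((1, 16), (2, 67108884), (3, 140224039101)), [0, 2, 1, 2]),
  (((1, 32), (2, 134217768), (3, 70212781182)), [1, 0, 1, 2, 1, 2, 1, 2]),
  (((1, 16), (2, 67108884), (3, 17248052575)), [0, 2, 1]),
  (((1, 32), (2, 134217768), (3, 34496092847)), [1, 0, 1, 2, 1, 2, 1]),
  (((1, 1), (2, 33554465), (3, 140224039101)), [1, 2]),
  (((1, 2), (2, 16777234), (3, 70212781182)), [0, 1, 2, 1, 0, 2]),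
  (((1, 1), (2, 33554465), (3, 4333535731)), [0, 1, 0, 2, 1, 0, 1, 2, 1, 2]),
  (((1, 2), (2, 16777234), (3, 8615903987)), [0, 1, 2, 1, 0]),
  (((1, 4), (2, 67108884), (3, 17248052575)), [0, 2, 1, 0]),
  (((1, 8), (2, 134217768), (3, 34496092847)), [1, 2, 1, 0, 2, 1]),
  (((1, 4), (2, 67108884), (3, 140224039101)), [1, 2, 1, 0, 1, 0, 1]),
  (((1, 8), (2, 134217768), (3, 70212781182)), [1, 2, 1, 0, 2, 1, 2]),
  (((1, 16), (2, 16777234), (3, 8615903987)), [0, 1, 2, 1]),
  (((1, 32), (2, 33554465), (3, 4333535731)), [1, 0]),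
  (((1, 64), (2, 268435552), (3, 552178098414)), [1, 0, 1, 0, 1, 2, 1]),
  (((1, 128), (2, 536871056), (3, 276498092253)), [0, 1, 0, 2, 1, 2, 1]),
  (((1, 64), (2, 1073741904), (3, 276498092253)), [2, 1, 0, 1, 2, 1]),
  (((1, 128), (2, 2147483808), (3, 552178098414)), [1, 0, 2, 1, 0, 2]),
  (((1, 64), (2, 1073741904), (3, 70212781182)), [0, 1, 2, 1, 2, 1, 0]),
  (((1, 128), (2, 2147483808), (3, 140224039101)), [1, 0, 2, 1, 0]),
  (((1, 16), (2, 536871056), (3, 276498092253)), [0, 2, 1, 2, 1, 2]),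
  (((1, 32), (2, 268435552), (3, 552178098414)), [1, 0, 2, 1, 2, 1]),
  (((1, 16), (2, 536871056), (3, 140224039101)), [0, 2, 1, 2, 1]),
  (((1, 32), (2, 268435552), (3, 70212781182)), [1, 0, 2, 1, 2, 1, 2]),
  (((1, 16), (2, 1073741904), (3, 70212781182)), [0, 1, 2, 1, 2, 1]),
  (((1, 32), (2, 2147483808), (3, 140224039101)), [0, 2, 1, 2, 1, 0, 1, 0]),
  (((1, 16), (2, 1073741904), (3, 276498092253)), [0, 1, 2, 1, 2, 1, 2]),
  (((1, 32), (2, 2147483808), (3, 552178098414)), [1, 0, 2, 1, 2]),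
  (((1, 64), (2, 268435552), (3, 70212781182)), [0, 1, 2, 1, 2, 1, 0, 1]),
  (((1, 128), (2, 536871056), (3, 140224039101)), [0, 2, 1, 2, 1, 0])]

lemma goodL : Good 3 LL (0, 0) (4, 1099511627775) := good_of_chk (by decide +kernel)

lemma baseVF : VF LL (0, 0) (4, 1099511627775) ((1, 1), (2, 273), (3, 4333535731)) :=
  ⟨by decide, by decide, by decide, rfl, rfl, rfl, by decide +kernel, by decide +kernel,
    by decide +kernel, by decide +kernel⟩

/-- There is a finite equivelar self-dual abstract polyhedron, of type `{6, 6}`, which has no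
polarity. -/
theorem result : ∃ P : AbstractPolytope 3, Finite P.Face ∧ Equivelar P 6 6 ∧
    Nonempty (Duality P) ∧ ∀ δ : Duality P, ¬ IsPolarity δ := by
  refine ⟨conv (mkPoly goodL), inferInstanceAs (Finite (PF LL)), ?_,
    exists_duality goodL (T := DT) (by decide +kernel), fun δ hδ => ?_⟩
  · obtain ⟨h1, h2⟩ := equivelar_of_chk goodL (p := 6) (q := 6) (by decide +kernel)
    constructor
    · intro F hF
      have h3 : (mkPoly goodL).rk F = 3 := by
        have : ((mkPoly goodL).rk F : ℤ) - 1 = 2 := hF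
        omega
      rw [← h1 F h3]
      congr 1
      ext v
      have e : ((mkPoly goodL).rk v : ℤ) - 1 = 0 ↔ (mkPoly goodL).rk v = 1 := by omega
      exact and_congr_left fun _ => e
    · intro v hv
      have h3 : (mkPoly goodL).rk v = 1 := by
        have : ((mkPoly goodL).rk v : ℤ) - 1 = 0 := hv
        omega
      rw [← h2 v h3]
      congr 1
      ext x
      have e : ((mkPoly goodL).rk x : ℤ) - 1 = 1 ↔ (mkPoly goodL).rk x = 2 := by omega
      exact and_congr_left fun _ => e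
  · exact no_polarity goodL baseVF (W := FW) (by decide +kernel) δ hδ

end Pool.Agent.Results.MP_1940b6_co.NoPolarity
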